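import Pool.Agent.H41.MK.W.R8

set_option autoImplicit false

/-!
# Rows 2250 to 2499 of the check
-/

namespace Pool.Agent.H41.MK.W

open Pool.Agent.K7.H27.MK Pool.Agent.H41.MK

theorem c45 : D.chunk 2250 50 = true := by decide +kernel

theorem c46 : D.chunk 2300 50 = true := by decide +kernel

theorem c47 : D.chunk 2350 50 = true := by decide +kernel

theorem c48 : D.chunk 2400 50 = true := by decide +kernel

theorem c49 : D.chunk 2450 50 = true := by decide +kernel

end Pool.Agent.H41.MK.W
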