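import Pool.Agent.H41.MK.W.Good
import Pool.Agent.H41.MK.W.R9

set_option autoImplicit false

/-!
# The word with the blocks of length 2500 has no abelian square of period at least two
-/

namespace Pool.Agent.H41.MK.W

open Pool.Agent.K7.H27.MK Pool.Agent.H41.MK

theorem rowg {lo n : ℕ} (h : D.chunk lo n = true) (r1 : ℕ) (h0 : lo ≤ r1) (h1 : r1 < lo + n) : D.rows r1 = true := by
  have := allB_sound h (r1 - lo) (by omega)
  rwa [show lo + (r1 - lo) = r1 by omega] at this

theorem hrow (r1 : ℕ) (h1 : r1 < D.L) : D.rows r1 = true := by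
  have hL : D.L = 2500 := rfl
  rw [hL] at h1
  obtain ⟨k, hk⟩ : ∃ k, k = r1 / 50 := ⟨_, rfl⟩
  have hk' : k < 50 := by omega
  interval_cases k
  · exact rowg c0 r1 (by omega) (by omega)
  · exact rowg c1 r1 (by omega) (by omega)
  · exact rowg c2 r1 (by omega) (by omega)
  · exact rowg c3 r1 (by omega) (by omega)
  · exact rowg c4 r1 (by omega) (by omega)
  · exact rowg c5 r1 (by omega) (by omega)
  · exact rowg c6 r1 (by omega) (by omega)
  · exact rowg c7 r1 (by omega) (by omega)
  · exact rowg c8 r1 (by omega) (by omega)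
  · exact rowg c9 r1 (by omega) (by omega)
  · exact rowg c10 r1 (by omega) (by omega)
  · exact rowg c11 r1 (by omega) (by omega)
  · exact rowg c12 r1 (by omega) (by omega)
  · exact rowg c13 r1 (by omega) (by omega)
  · exact rowg c14 r1 (by omega) (by omega)
  · exact rowg c15 r1 (by omega) (by omega)
  · exact rowg c16 r1 (by omega) (by omega)
  · exact rowg c17 r1 (by omega) (by omega)
  · exact rowg c18 r1 (by omega) (by omega)
  · exact rowg c19 r1 (by omega) (by omega)
  · exact rowg c20 r1 (by omega) (by omega)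
  · exact rowg c21 r1 (by omega) (by omega)
  · exact rowg c22 r1 (by omega) (by omega)
  · exact rowg c23 r1 (by omega) (by omega)
  · exact rowg c24 r1 (by omega) (by omega)
  · exact rowg c25 r1 (by omega) (by omega)
  · exact rowg c26 r1 (by omega) (by omega)
  · exact rowg c27 r1 (by omega) (by omega)
  · exact rowg c28 r1 (by omega) (by omega)
  · exact rowg c29 r1 (by omega) (by omega)
  · exact rowg c30 r1 (by omega) (by omega)
  · exact rowg c31 r1 (by omega) (by omega)
  · exact rowg c32 r1 (by omega) (by omega)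
  · exact rowg c33 r1 (by omega) (by omega)
  · exact rowg c34 r1 (by omega) (by omega)
  · exact rowg c35 r1 (by omega) (by omega)
  · exact rowg c36 r1 (by omega) (by omega)
  · exact rowg c37 r1 (by omega) (by omega)
  · exact rowg c38 r1 (by omega) (by omega)
  · exact rowg c39 r1 (by omega) (by omega)
  · exact rowg c40 r1 (by omega) (by omega)
  · exact rowg c41 r1 (by omega) (by omega)
  · exact rowg c42 r1 (by omega) (by omega)
  · exact rowg c43 r1 (by omega) (by omega)
  · exact rowg c44 r1 (by omega) (by omega)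
  · exact rowg c45 r1 (by omega) (by omega)
  · exact rowg c46 r1 (by omega) (by omega)
  · exact rowg c47 r1 (by omega) (by omega)
  · exact rowg c48 r1 (by omega) (by omega)
  · exact rowg c49 r1 (by omega) (by omega)

theorem path (b : ℕ) (hb : b < 2) (r : ℕ) (hr : r ≤ D.L) : pB om wd b r = ⟨D.fx b r, D.fy b r⟩ :=
  pathB (g := wd) (fx := fx) (fy := fy) (L := 2500) (zero b hb) (fun r hr => steps r hr b hb) r hr

theorem cert : Cert om (pB om wd 1 2500 - pB om wd 0 2500) (pB om wd 0 2500) (pB om wd) 2500 2 1 := by
  have h := Dat2.cert good path hrow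
  have e0 : pB om wd 0 2500 = (⟨D.ca, D.cb⟩ : Z) := by
    rw [path 0 (by norm_num) 2500 (le_refl _)]
    have := ends
    ext
    · exact this.1
    · exact this.2.1
  have e1 : pB om wd 1 2500 - pB om wd 0 2500 = (⟨D.ma, D.mb⟩ : Z) := by
    rw [path 1 (by norm_num) 2500 (le_refl _), path 0 (by norm_num) 2500 (le_refl _)]
    have := ends
    ext
    · show fx 1 2500 - fx 0 2500 = D.ma
      rw [this.1, this.2.2.1]; rfl
    · show fy 1 2500 - fy 0 2500 = D.mb
      rw [this.2.1, this.2.2.2]; rfl
  rw [e1, e0]
  exact h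

end Pool.Agent.H41.MK.W
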