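import Pool.Agent.H41.MK.W.Lit

set_option autoImplicit false

/-!
# Steps of the tables, first half
-/

namespace Pool.Agent.H41.MK.W

open Pool.Agent.K7.H27.MK Pool.Agent.H41.MK

theorem gs0 : ∀ i, i < 100 → ∀ b, b < 2 → wd b (0 + i) < 3 ∧ fx b (0 + i + 1) = fx b (0 + i) + (rt (wd b (0 + i)) 1 0).1 ∧
    fy b (0 + i + 1) = fy b (0 + i) + (rt (wd b (0 + i)) 1 0).2 := by decide +kernel

theorem gs1 : ∀ i, i < 100 → ∀ b, b < 2 → wd b (100 + i) < 3 ∧ fx b (100 + i + 1) = fx b (100 + i) + (rt (wd b (100 + i)) 1 0).1 ∧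
    fy b (100 + i + 1) = fy b (100 + i) + (rt (wd b (100 + i)) 1 0).2 := by decide +kernel

theorem gs2 : ∀ i, i < 100 → ∀ b, b < 2 → wd b (200 + i) < 3 ∧ fx b (200 + i + 1) = fx b (200 + i) + (rt (wd b (200 + i)) 1 0).1 ∧
    fy b (200 + i + 1) = fy b (200 + i) + (rt (wd b (200 + i)) 1 0).2 := by decide +kernel

theorem gs3 : ∀ i, i < 100 → ∀ b, b < 2 → wd b (300 + i) < 3 ∧ fx b (300 + i + 1) = fx b (300 + i) + (rt (wd b (300 + i)) 1 0).1 ∧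
    fy b (300 + i + 1) = fy b (300 + i) + (rt (wd b (300 + i)) 1 0).2 := by decide +kernel

theorem gs4 : ∀ i, i < 100 → ∀ b, b < 2 → wd b (400 + i) < 3 ∧ fx b (400 + i + 1) = fx b (400 + i) + (rt (wd b (400 + i)) 1 0).1 ∧
    fy b (400 + i + 1) = fy b (400 + i) + (rt (wd b (400 + i)) 1 0).2 := by decide +kernel

theorem gs5 : ∀ i, i < 100 → ∀ b, b < 2 → wd b (500 + i) < 3 ∧ fx b (500 + i + 1) = fx b (500 + i) + (rt (wd b (500 + i)) 1 0).1 ∧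
    fy b (500 + i + 1) = fy b (500 + i) + (rt (wd b (500 + i)) 1 0).2 := by decide +kernel

theorem gs6 : ∀ i, i < 100 → ∀ b, b < 2 → wd b (600 + i) < 3 ∧ fx b (600 + i + 1) = fx b (600 + i) + (rt (wd b (600 + i)) 1 0).1 ∧
    fy b (600 + i + 1) = fy b (600 + i) + (rt (wd b (600 + i)) 1 0).2 := by decide +kernel

theorem gs7 : ∀ i, i < 100 → ∀ b, b < 2 → wd b (700 + i) < 3 ∧ fx b (700 + i + 1) = fx b (700 + i) + (rt (wd b (700 + i)) 1 0).1 ∧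
    fy b (700 + i + 1) = fy b (700 + i) + (rt (wd b (700 + i)) 1 0).2 := by decide +kernel

theorem gs8 : ∀ i, i < 100 → ∀ b, b < 2 → wd b (800 + i) < 3 ∧ fx b (800 + i + 1) = fx b (800 + i) + (rt (wd b (800 + i)) 1 0).1 ∧
    fy b (800 + i + 1) = fy b (800 + i) + (rt (wd b (800 + i)) 1 0).2 := by decide +kernel

theorem gs9 : ∀ i, i < 100 → ∀ b, b < 2 → wd b (900 + i) < 3 ∧ fx b (900 + i + 1) = fx b (900 + i) + (rt (wd b (900 + i)) 1 0).1 ∧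
    fy b (900 + i + 1) = fy b (900 + i) + (rt (wd b (900 + i)) 1 0).2 := by decide +kernel

theorem gs10 : ∀ i, i < 100 → ∀ b, b < 2 → wd b (1000 + i) < 3 ∧ fx b (1000 + i + 1) = fx b (1000 + i) + (rt (wd b (1000 + i)) 1 0).1 ∧
    fy b (1000 + i + 1) = fy b (1000 + i) + (rt (wd b (1000 + i)) 1 0).2 := by decide +kernel

theorem gs11 : ∀ i, i < 100 → ∀ b, b < 2 → wd b (1100 + i) < 3 ∧ fx b (1100 + i + 1) = fx b (1100 + i) + (rt (wd b (1100 + i)) 1 0).1 ∧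
    fy b (1100 + i + 1) = fy b (1100 + i) + (rt (wd b (1100 + i)) 1 0).2 := by decide +kernel

theorem gs12 : ∀ i, i < 100 → ∀ b, b < 2 → wd b (1200 + i) < 3 ∧ fx b (1200 + i + 1) = fx b (1200 + i) + (rt (wd b (1200 + i)) 1 0).1 ∧
    fy b (1200 + i + 1) = fy b (1200 + i) + (rt (wd b (1200 + i)) 1 0).2 := by decide +kernel

end Pool.Agent.H41.MK.W
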