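import Pool.Agent.H41.MK.W.G0

set_option autoImplicit false

/-!
# Steps of the tables, second half
-/

namespace Pool.Agent.H41.MK.W

open Pool.Agent.K7.H27.MK Pool.Agent.H41.MK

theorem gs13 : ∀ i, i < 100 → ∀ b, b < 2 → wd b (1300 + i) < 3 ∧ fx b (1300 + i + 1) = fx b (1300 + i) + (rt (wd b (1300 + i)) 1 0).1 ∧
    fy b (1300 + i + 1) = fy b (1300 + i) + (rt (wd b (1300 + i)) 1 0).2 := by decide +kernel

theorem gs14 : ∀ i, i < 100 → ∀ b, b < 2 → wd b (1400 + i) < 3 ∧ fx b (1400 + i + 1) = fx b (1400 + i) + (rt (wd b (1400 + i)) 1 0).1 ∧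
    fy b (1400 + i + 1) = fy b (1400 + i) + (rt (wd b (1400 + i)) 1 0).2 := by decide +kernel

theorem gs15 : ∀ i, i < 100 → ∀ b, b < 2 → wd b (1500 + i) < 3 ∧ fx b (1500 + i + 1) = fx b (1500 + i) + (rt (wd b (1500 + i)) 1 0).1 ∧
    fy b (1500 + i + 1) = fy b (1500 + i) + (rt (wd b (1500 + i)) 1 0).2 := by decide +kernel

theorem gs16 : ∀ i, i < 100 → ∀ b, b < 2 → wd b (1600 + i) < 3 ∧ fx b (1600 + i + 1) = fx b (1600 + i) + (rt (wd b (1600 + i)) 1 0).1 ∧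
    fy b (1600 + i + 1) = fy b (1600 + i) + (rt (wd b (1600 + i)) 1 0).2 := by decide +kernel

theorem gs17 : ∀ i, i < 100 → ∀ b, b < 2 → wd b (1700 + i) < 3 ∧ fx b (1700 + i + 1) = fx b (1700 + i) + (rt (wd b (1700 + i)) 1 0).1 ∧
    fy b (1700 + i + 1) = fy b (1700 + i) + (rt (wd b (1700 + i)) 1 0).2 := by decide +kernel

theorem gs18 : ∀ i, i < 100 → ∀ b, b < 2 → wd b (1800 + i) < 3 ∧ fx b (1800 + i + 1) = fx b (1800 + i) + (rt (wd b (1800 + i)) 1 0).1 ∧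
    fy b (1800 + i + 1) = fy b (1800 + i) + (rt (wd b (1800 + i)) 1 0).2 := by decide +kernel

theorem gs19 : ∀ i, i < 100 → ∀ b, b < 2 → wd b (1900 + i) < 3 ∧ fx b (1900 + i + 1) = fx b (1900 + i) + (rt (wd b (1900 + i)) 1 0).1 ∧
    fy b (1900 + i + 1) = fy b (1900 + i) + (rt (wd b (1900 + i)) 1 0).2 := by decide +kernel

theorem gs20 : ∀ i, i < 100 → ∀ b, b < 2 → wd b (2000 + i) < 3 ∧ fx b (2000 + i + 1) = fx b (2000 + i) + (rt (wd b (2000 + i)) 1 0).1 ∧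
    fy b (2000 + i + 1) = fy b (2000 + i) + (rt (wd b (2000 + i)) 1 0).2 := by decide +kernel

theorem gs21 : ∀ i, i < 100 → ∀ b, b < 2 → wd b (2100 + i) < 3 ∧ fx b (2100 + i + 1) = fx b (2100 + i) + (rt (wd b (2100 + i)) 1 0).1 ∧
    fy b (2100 + i + 1) = fy b (2100 + i) + (rt (wd b (2100 + i)) 1 0).2 := by decide +kernel

theorem gs22 : ∀ i, i < 100 → ∀ b, b < 2 → wd b (2200 + i) < 3 ∧ fx b (2200 + i + 1) = fx b (2200 + i) + (rt (wd b (2200 + i)) 1 0).1 ∧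
    fy b (2200 + i + 1) = fy b (2200 + i) + (rt (wd b (2200 + i)) 1 0).2 := by decide +kernel

theorem gs23 : ∀ i, i < 100 → ∀ b, b < 2 → wd b (2300 + i) < 3 ∧ fx b (2300 + i + 1) = fx b (2300 + i) + (rt (wd b (2300 + i)) 1 0).1 ∧
    fy b (2300 + i + 1) = fy b (2300 + i) + (rt (wd b (2300 + i)) 1 0).2 := by decide +kernel

theorem gs24 : ∀ i, i < 100 → ∀ b, b < 2 → wd b (2400 + i) < 3 ∧ fx b (2400 + i + 1) = fx b (2400 + i) + (rt (wd b (2400 + i)) 1 0).1 ∧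
    fy b (2400 + i + 1) = fy b (2400 + i) + (rt (wd b (2400 + i)) 1 0).2 := by decide +kernel

end Pool.Agent.H41.MK.W
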