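import Pool.Agent.H41.MK.W.G1

set_option autoImplicit false

/-!
# Residues
-/

namespace Pool.Agent.H41.MK.W

open Pool.Agent.K7.H27.MK Pool.Agent.H41.MK

theorem ga0 : ∀ i, i < 100 → ∀ b, b < 2 → ((ln (D.A b) (0 + i) : ℕ) : ℤ) = D.res (D.fx b (0 + i)) (D.fy b (0 + i)) := by decide +kernel

theorem ga1 : ∀ i, i < 100 → ∀ b, b < 2 → ((ln (D.A b) (100 + i) : ℕ) : ℤ) = D.res (D.fx b (100 + i)) (D.fy b (100 + i)) := by decide +kernel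

theorem ga2 : ∀ i, i < 100 → ∀ b, b < 2 → ((ln (D.A b) (200 + i) : ℕ) : ℤ) = D.res (D.fx b (200 + i)) (D.fy b (200 + i)) := by decide +kernel

theorem ga3 : ∀ i, i < 100 → ∀ b, b < 2 → ((ln (D.A b) (300 + i) : ℕ) : ℤ) = D.res (D.fx b (300 + i)) (D.fy b (300 + i)) := by decide +kernel

theorem ga4 : ∀ i, i < 100 → ∀ b, b < 2 → ((ln (D.A b) (400 + i) : ℕ) : ℤ) = D.res (D.fx b (400 + i)) (D.fy b (400 + i)) := by decide +kernel

theorem ga5 : ∀ i, i < 100 → ∀ b, b < 2 → ((ln (D.A b) (500 + i) : ℕ) : ℤ) = D.res (D.fx b (500 + i)) (D.fy b (500 + i)) := by decide +kernel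

theorem ga6 : ∀ i, i < 100 → ∀ b, b < 2 → ((ln (D.A b) (600 + i) : ℕ) : ℤ) = D.res (D.fx b (600 + i)) (D.fy b (600 + i)) := by decide +kernel

theorem ga7 : ∀ i, i < 100 → ∀ b, b < 2 → ((ln (D.A b) (700 + i) : ℕ) : ℤ) = D.res (D.fx b (700 + i)) (D.fy b (700 + i)) := by decide +kernel

theorem ga8 : ∀ i, i < 100 → ∀ b, b < 2 → ((ln (D.A b) (800 + i) : ℕ) : ℤ) = D.res (D.fx b (800 + i)) (D.fy b (800 + i)) := by decide +kernel

theorem ga9 : ∀ i, i < 100 → ∀ b, b < 2 → ((ln (D.A b) (900 + i) : ℕ) : ℤ) = D.res (D.fx b (900 + i)) (D.fy b (900 + i)) := by decide +kernel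

theorem ga10 : ∀ i, i < 100 → ∀ b, b < 2 → ((ln (D.A b) (1000 + i) : ℕ) : ℤ) = D.res (D.fx b (1000 + i)) (D.fy b (1000 + i)) := by decide +kernel

theorem ga11 : ∀ i, i < 100 → ∀ b, b < 2 → ((ln (D.A b) (1100 + i) : ℕ) : ℤ) = D.res (D.fx b (1100 + i)) (D.fy b (1100 + i)) := by decide +kernel

theorem ga12 : ∀ i, i < 100 → ∀ b, b < 2 → ((ln (D.A b) (1200 + i) : ℕ) : ℤ) = D.res (D.fx b (1200 + i)) (D.fy b (1200 + i)) := by decide +kernel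

theorem ga13 : ∀ i, i < 100 → ∀ b, b < 2 → ((ln (D.A b) (1300 + i) : ℕ) : ℤ) = D.res (D.fx b (1300 + i)) (D.fy b (1300 + i)) := by decide +kernel

theorem ga14 : ∀ i, i < 100 → ∀ b, b < 2 → ((ln (D.A b) (1400 + i) : ℕ) : ℤ) = D.res (D.fx b (1400 + i)) (D.fy b (1400 + i)) := by decide +kernel

theorem ga15 : ∀ i, i < 100 → ∀ b, b < 2 → ((ln (D.A b) (1500 + i) : ℕ) : ℤ) = D.res (D.fx b (1500 + i)) (D.fy b (1500 + i)) := by decide +kernel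

theorem ga16 : ∀ i, i < 100 → ∀ b, b < 2 → ((ln (D.A b) (1600 + i) : ℕ) : ℤ) = D.res (D.fx b (1600 + i)) (D.fy b (1600 + i)) := by decide +kernel

theorem ga17 : ∀ i, i < 100 → ∀ b, b < 2 → ((ln (D.A b) (1700 + i) : ℕ) : ℤ) = D.res (D.fx b (1700 + i)) (D.fy b (1700 + i)) := by decide +kernel

theorem ga18 : ∀ i, i < 100 → ∀ b, b < 2 → ((ln (D.A b) (1800 + i) : ℕ) : ℤ) = D.res (D.fx b (1800 + i)) (D.fy b (1800 + i)) := by decide +kernel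

theorem ga19 : ∀ i, i < 100 → ∀ b, b < 2 → ((ln (D.A b) (1900 + i) : ℕ) : ℤ) = D.res (D.fx b (1900 + i)) (D.fy b (1900 + i)) := by decide +kernel

theorem ga20 : ∀ i, i < 100 → ∀ b, b < 2 → ((ln (D.A b) (2000 + i) : ℕ) : ℤ) = D.res (D.fx b (2000 + i)) (D.fy b (2000 + i)) := by decide +kernel

theorem ga21 : ∀ i, i < 100 → ∀ b, b < 2 → ((ln (D.A b) (2100 + i) : ℕ) : ℤ) = D.res (D.fx b (2100 + i)) (D.fy b (2100 + i)) := by decide +kernel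

theorem ga22 : ∀ i, i < 100 → ∀ b, b < 2 → ((ln (D.A b) (2200 + i) : ℕ) : ℤ) = D.res (D.fx b (2200 + i)) (D.fy b (2200 + i)) := by decide +kernel

theorem ga23 : ∀ i, i < 100 → ∀ b, b < 2 → ((ln (D.A b) (2300 + i) : ℕ) : ℤ) = D.res (D.fx b (2300 + i)) (D.fy b (2300 + i)) := by decide +kernel

theorem ga24 : ∀ i, i < 100 → ∀ b, b < 2 → ((ln (D.A b) (2400 + i) : ℕ) : ℤ) = D.res (D.fx b (2400 + i)) (D.fy b (2400 + i)) := by decide +kernel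

end Pool.Agent.H41.MK.W
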