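import Pool.Agent.H41.MK.W.G2

set_option autoImplicit false

/-!
# Packed tables, first part
-/

namespace Pool.Agent.H41.MK.W

open Pool.Agent.K7.H27.MK Pool.Agent.H41.MK

theorem gq0 : ∀ i, i < 100 → ∀ c, c < 3 → ∀ b, b < 2 → ∀ δ, δ < 3 →
    ((ln (D.Q b δ) (D.L * c + (D.L - 1 - (0 + i))) : ℕ) : ℤ) = D.qv b δ c (0 + i) := by decide +kernel

theorem gq1 : ∀ i, i < 100 → ∀ c, c < 3 → ∀ b, b < 2 → ∀ δ, δ < 3 →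
    ((ln (D.Q b δ) (D.L * c + (D.L - 1 - (100 + i))) : ℕ) : ℤ) = D.qv b δ c (100 + i) := by decide +kernel

theorem gq2 : ∀ i, i < 100 → ∀ c, c < 3 → ∀ b, b < 2 → ∀ δ, δ < 3 →
    ((ln (D.Q b δ) (D.L * c + (D.L - 1 - (200 + i))) : ℕ) : ℤ) = D.qv b δ c (200 + i) := by decide +kernel

theorem gq3 : ∀ i, i < 100 → ∀ c, c < 3 → ∀ b, b < 2 → ∀ δ, δ < 3 →
    ((ln (D.Q b δ) (D.L * c + (D.L - 1 - (300 + i))) : ℕ) : ℤ) = D.qv b δ c (300 + i) := by decide +kernel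

theorem gq4 : ∀ i, i < 100 → ∀ c, c < 3 → ∀ b, b < 2 → ∀ δ, δ < 3 →
    ((ln (D.Q b δ) (D.L * c + (D.L - 1 - (400 + i))) : ℕ) : ℤ) = D.qv b δ c (400 + i) := by decide +kernel

theorem gq5 : ∀ i, i < 100 → ∀ c, c < 3 → ∀ b, b < 2 → ∀ δ, δ < 3 →
    ((ln (D.Q b δ) (D.L * c + (D.L - 1 - (500 + i))) : ℕ) : ℤ) = D.qv b δ c (500 + i) := by decide +kernel

theorem gq6 : ∀ i, i < 100 → ∀ c, c < 3 → ∀ b, b < 2 → ∀ δ, δ < 3 →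
    ((ln (D.Q b δ) (D.L * c + (D.L - 1 - (600 + i))) : ℕ) : ℤ) = D.qv b δ c (600 + i) := by decide +kernel

theorem gq7 : ∀ i, i < 100 → ∀ c, c < 3 → ∀ b, b < 2 → ∀ δ, δ < 3 →
    ((ln (D.Q b δ) (D.L * c + (D.L - 1 - (700 + i))) : ℕ) : ℤ) = D.qv b δ c (700 + i) := by decide +kernel

theorem gq8 : ∀ i, i < 100 → ∀ c, c < 3 → ∀ b, b < 2 → ∀ δ, δ < 3 →
    ((ln (D.Q b δ) (D.L * c + (D.L - 1 - (800 + i))) : ℕ) : ℤ) = D.qv b δ c (800 + i) := by decide +kernel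

end Pool.Agent.H41.MK.W
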