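import Pool.Agent.H41.MK.W.G3

set_option autoImplicit false

/-!
# Packed tables, second part
-/

namespace Pool.Agent.H41.MK.W

open Pool.Agent.K7.H27.MK Pool.Agent.H41.MK

theorem gq9 : ∀ i, i < 100 → ∀ c, c < 3 → ∀ b, b < 2 → ∀ δ, δ < 3 →
    ((ln (D.Q b δ) (D.L * c + (D.L - 1 - (900 + i))) : ℕ) : ℤ) = D.qv b δ c (900 + i) := by decide +kernel

theorem gq10 : ∀ i, i < 100 → ∀ c, c < 3 → ∀ b, b < 2 → ∀ δ, δ < 3 →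
    ((ln (D.Q b δ) (D.L * c + (D.L - 1 - (1000 + i))) : ℕ) : ℤ) = D.qv b δ c (1000 + i) := by decide +kernel

theorem gq11 : ∀ i, i < 100 → ∀ c, c < 3 → ∀ b, b < 2 → ∀ δ, δ < 3 →
    ((ln (D.Q b δ) (D.L * c + (D.L - 1 - (1100 + i))) : ℕ) : ℤ) = D.qv b δ c (1100 + i) := by decide +kernel

theorem gq12 : ∀ i, i < 100 → ∀ c, c < 3 → ∀ b, b < 2 → ∀ δ, δ < 3 →
    ((ln (D.Q b δ) (D.L * c + (D.L - 1 - (1200 + i))) : ℕ) : ℤ) = D.qv b δ c (1200 + i) := by decide +kernel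

theorem gq13 : ∀ i, i < 100 → ∀ c, c < 3 → ∀ b, b < 2 → ∀ δ, δ < 3 →
    ((ln (D.Q b δ) (D.L * c + (D.L - 1 - (1300 + i))) : ℕ) : ℤ) = D.qv b δ c (1300 + i) := by decide +kernel

theorem gq14 : ∀ i, i < 100 → ∀ c, c < 3 → ∀ b, b < 2 → ∀ δ, δ < 3 →
    ((ln (D.Q b δ) (D.L * c + (D.L - 1 - (1400 + i))) : ℕ) : ℤ) = D.qv b δ c (1400 + i) := by decide +kernel

theorem gq15 : ∀ i, i < 100 → ∀ c, c < 3 → ∀ b, b < 2 → ∀ δ, δ < 3 →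
    ((ln (D.Q b δ) (D.L * c + (D.L - 1 - (1500 + i))) : ℕ) : ℤ) = D.qv b δ c (1500 + i) := by decide +kernel

theorem gq16 : ∀ i, i < 100 → ∀ c, c < 3 → ∀ b, b < 2 → ∀ δ, δ < 3 →
    ((ln (D.Q b δ) (D.L * c + (D.L - 1 - (1600 + i))) : ℕ) : ℤ) = D.qv b δ c (1600 + i) := by decide +kernel

end Pool.Agent.H41.MK.W
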