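import Pool.Agent.H41.MK.W.G4

set_option autoImplicit false

/-!
# Packed tables, third part
-/

namespace Pool.Agent.H41.MK.W

open Pool.Agent.K7.H27.MK Pool.Agent.H41.MK

theorem gq17 : ∀ i, i < 100 → ∀ c, c < 3 → ∀ b, b < 2 → ∀ δ, δ < 3 →
    ((ln (D.Q b δ) (D.L * c + (D.L - 1 - (1700 + i))) : ℕ) : ℤ) = D.qv b δ c (1700 + i) := by decide +kernel

theorem gq18 : ∀ i, i < 100 → ∀ c, c < 3 → ∀ b, b < 2 → ∀ δ, δ < 3 →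
    ((ln (D.Q b δ) (D.L * c + (D.L - 1 - (1800 + i))) : ℕ) : ℤ) = D.qv b δ c (1800 + i) := by decide +kernel

theorem gq19 : ∀ i, i < 100 → ∀ c, c < 3 → ∀ b, b < 2 → ∀ δ, δ < 3 →
    ((ln (D.Q b δ) (D.L * c + (D.L - 1 - (1900 + i))) : ℕ) : ℤ) = D.qv b δ c (1900 + i) := by decide +kernel

theorem gq20 : ∀ i, i < 100 → ∀ c, c < 3 → ∀ b, b < 2 → ∀ δ, δ < 3 →
    ((ln (D.Q b δ) (D.L * c + (D.L - 1 - (2000 + i))) : ℕ) : ℤ) = D.qv b δ c (2000 + i) := by decide +kernel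

theorem gq21 : ∀ i, i < 100 → ∀ c, c < 3 → ∀ b, b < 2 → ∀ δ, δ < 3 →
    ((ln (D.Q b δ) (D.L * c + (D.L - 1 - (2100 + i))) : ℕ) : ℤ) = D.qv b δ c (2100 + i) := by decide +kernel

theorem gq22 : ∀ i, i < 100 → ∀ c, c < 3 → ∀ b, b < 2 → ∀ δ, δ < 3 →
    ((ln (D.Q b δ) (D.L * c + (D.L - 1 - (2200 + i))) : ℕ) : ℤ) = D.qv b δ c (2200 + i) := by decide +kernel

theorem gq23 : ∀ i, i < 100 → ∀ c, c < 3 → ∀ b, b < 2 → ∀ δ, δ < 3 →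
    ((ln (D.Q b δ) (D.L * c + (D.L - 1 - (2300 + i))) : ℕ) : ℤ) = D.qv b δ c (2300 + i) := by decide +kernel

theorem gq24 : ∀ i, i < 100 → ∀ c, c < 3 → ∀ b, b < 2 → ∀ δ, δ < 3 →
    ((ln (D.Q b δ) (D.L * c + (D.L - 1 - (2400 + i))) : ℕ) : ℤ) = D.qv b δ c (2400 + i) := by decide +kernel

end Pool.Agent.H41.MK.W
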