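import Pool.Agent.H41.MK.W.G5

set_option autoImplicit false

/-!
# Tails
-/

namespace Pool.Agent.H41.MK.W

open Pool.Agent.K7.H27.MK Pool.Agent.H41.MK

theorem gt0 : ∀ i, i < 100 → ∀ b, b < 2 → ∀ δ, δ < 3 → ((ln (D.T b δ) (0 + i) : ℕ) : ℤ) = D.tv b δ (0 + i) := by decide +kernel

theorem gt1 : ∀ i, i < 100 → ∀ b, b < 2 → ∀ δ, δ < 3 → ((ln (D.T b δ) (100 + i) : ℕ) : ℤ) = D.tv b δ (100 + i) := by decide +kernel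

theorem gt2 : ∀ i, i < 100 → ∀ b, b < 2 → ∀ δ, δ < 3 → ((ln (D.T b δ) (200 + i) : ℕ) : ℤ) = D.tv b δ (200 + i) := by decide +kernel

theorem gt3 : ∀ i, i < 100 → ∀ b, b < 2 → ∀ δ, δ < 3 → ((ln (D.T b δ) (300 + i) : ℕ) : ℤ) = D.tv b δ (300 + i) := by decide +kernel

theorem gt4 : ∀ i, i < 100 → ∀ b, b < 2 → ∀ δ, δ < 3 → ((ln (D.T b δ) (400 + i) : ℕ) : ℤ) = D.tv b δ (400 + i) := by decide +kernel

theorem gt5 : ∀ i, i < 100 → ∀ b, b < 2 → ∀ δ, δ < 3 → ((ln (D.T b δ) (500 + i) : ℕ) : ℤ) = D.tv b δ (500 + i) := by decide +kernel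

theorem gt6 : ∀ i, i < 100 → ∀ b, b < 2 → ∀ δ, δ < 3 → ((ln (D.T b δ) (600 + i) : ℕ) : ℤ) = D.tv b δ (600 + i) := by decide +kernel

theorem gt7 : ∀ i, i < 100 → ∀ b, b < 2 → ∀ δ, δ < 3 → ((ln (D.T b δ) (700 + i) : ℕ) : ℤ) = D.tv b δ (700 + i) := by decide +kernel

theorem gt8 : ∀ i, i < 100 → ∀ b, b < 2 → ∀ δ, δ < 3 → ((ln (D.T b δ) (800 + i) : ℕ) : ℤ) = D.tv b δ (800 + i) := by decide +kernel

theorem gt9 : ∀ i, i < 100 → ∀ b, b < 2 → ∀ δ, δ < 3 → ((ln (D.T b δ) (900 + i) : ℕ) : ℤ) = D.tv b δ (900 + i) := by decide +kernel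

theorem gt10 : ∀ i, i < 100 → ∀ b, b < 2 → ∀ δ, δ < 3 → ((ln (D.T b δ) (1000 + i) : ℕ) : ℤ) = D.tv b δ (1000 + i) := by decide +kernel

theorem gt11 : ∀ i, i < 100 → ∀ b, b < 2 → ∀ δ, δ < 3 → ((ln (D.T b δ) (1100 + i) : ℕ) : ℤ) = D.tv b δ (1100 + i) := by decide +kernel

theorem gt12 : ∀ i, i < 100 → ∀ b, b < 2 → ∀ δ, δ < 3 → ((ln (D.T b δ) (1200 + i) : ℕ) : ℤ) = D.tv b δ (1200 + i) := by decide +kernel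

theorem gt13 : ∀ i, i < 100 → ∀ b, b < 2 → ∀ δ, δ < 3 → ((ln (D.T b δ) (1300 + i) : ℕ) : ℤ) = D.tv b δ (1300 + i) := by decide +kernel

theorem gt14 : ∀ i, i < 100 → ∀ b, b < 2 → ∀ δ, δ < 3 → ((ln (D.T b δ) (1400 + i) : ℕ) : ℤ) = D.tv b δ (1400 + i) := by decide +kernel

theorem gt15 : ∀ i, i < 100 → ∀ b, b < 2 → ∀ δ, δ < 3 → ((ln (D.T b δ) (1500 + i) : ℕ) : ℤ) = D.tv b δ (1500 + i) := by decide +kernel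

theorem gt16 : ∀ i, i < 100 → ∀ b, b < 2 → ∀ δ, δ < 3 → ((ln (D.T b δ) (1600 + i) : ℕ) : ℤ) = D.tv b δ (1600 + i) := by decide +kernel

theorem gt17 : ∀ i, i < 100 → ∀ b, b < 2 → ∀ δ, δ < 3 → ((ln (D.T b δ) (1700 + i) : ℕ) : ℤ) = D.tv b δ (1700 + i) := by decide +kernel

theorem gt18 : ∀ i, i < 100 → ∀ b, b < 2 → ∀ δ, δ < 3 → ((ln (D.T b δ) (1800 + i) : ℕ) : ℤ) = D.tv b δ (1800 + i) := by decide +kernel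

theorem gt19 : ∀ i, i < 100 → ∀ b, b < 2 → ∀ δ, δ < 3 → ((ln (D.T b δ) (1900 + i) : ℕ) : ℤ) = D.tv b δ (1900 + i) := by decide +kernel

theorem gt20 : ∀ i, i < 100 → ∀ b, b < 2 → ∀ δ, δ < 3 → ((ln (D.T b δ) (2000 + i) : ℕ) : ℤ) = D.tv b δ (2000 + i) := by decide +kernel

theorem gt21 : ∀ i, i < 100 → ∀ b, b < 2 → ∀ δ, δ < 3 → ((ln (D.T b δ) (2100 + i) : ℕ) : ℤ) = D.tv b δ (2100 + i) := by decide +kernel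

theorem gt22 : ∀ i, i < 100 → ∀ b, b < 2 → ∀ δ, δ < 3 → ((ln (D.T b δ) (2200 + i) : ℕ) : ℤ) = D.tv b δ (2200 + i) := by decide +kernel

theorem gt23 : ∀ i, i < 100 → ∀ b, b < 2 → ∀ δ, δ < 3 → ((ln (D.T b δ) (2300 + i) : ℕ) : ℤ) = D.tv b δ (2300 + i) := by decide +kernel

theorem gt24 : ∀ i, i < 100 → ∀ b, b < 2 → ∀ δ, δ < 3 → ((ln (D.T b δ) (2400 + i) : ℕ) : ℤ) = D.tv b δ (2400 + i) := by decide +kernel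

end Pool.Agent.H41.MK.W
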