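import Pool.Agent.H41.MK.W.G6

set_option autoImplicit false

/-!
# The tables are correct
-/

namespace Pool.Agent.H41.MK.W

open Pool.Agent.K7.H27.MK Pool.Agent.H41.MK

theorem steps : ∀ r, r < 2500 → ∀ b, b < 2 → wd b r < 3 ∧ fx b (r + 1) = fx b r + (rt (wd b r) 1 0).1 ∧
    fy b (r + 1) = fy b r + (rt (wd b r) 1 0).2 := by
  intro r hr
  obtain ⟨k, hk⟩ : ∃ k, k = r / 100 := ⟨_, rfl⟩
  have hk' : k < 25 := by omega
  interval_cases k
  · have h := gs0 (r - 0) (by omega)
    rw [show 0 + (r - 0) = r by omega] at h
    exact h
  · have h := gs1 (r - 100) (by omega)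
    rw [show 100 + (r - 100) = r by omega] at h
    exact h
  · have h := gs2 (r - 200) (by omega)
    rw [show 200 + (r - 200) = r by omega] at h
    exact h
  · have h := gs3 (r - 300) (by omega)
    rw [show 300 + (r - 300) = r by omega] at h
    exact h
  · have h := gs4 (r - 400) (by omega)
    rw [show 400 + (r - 400) = r by omega] at h
    exact h
  · have h := gs5 (r - 500) (by omega)
    rw [show 500 + (r - 500) = r by omega] at h
    exact h
  · have h := gs6 (r - 600) (by omega)
    rw [show 600 + (r - 600) = r by omega] at h
    exact h
  · have h := gs7 (r - 700) (by omega)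
    rw [show 700 + (r - 700) = r by omega] at h
    exact h
  · have h := gs8 (r - 800) (by omega)
    rw [show 800 + (r - 800) = r by omega] at h
    exact h
  · have h := gs9 (r - 900) (by omega)
    rw [show 900 + (r - 900) = r by omega] at h
    exact h
  · have h := gs10 (r - 1000) (by omega)
    rw [show 1000 + (r - 1000) = r by omega] at h
    exact h
  · have h := gs11 (r - 1100) (by omega)
    rw [show 1100 + (r - 1100) = r by omega] at h
    exact h
  · have h := gs12 (r - 1200) (by omega)
    rw [show 1200 + (r - 1200) = r by omega] at h
    exact h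
  · have h := gs13 (r - 1300) (by omega)
    rw [show 1300 + (r - 1300) = r by omega] at h
    exact h
  · have h := gs14 (r - 1400) (by omega)
    rw [show 1400 + (r - 1400) = r by omega] at h
    exact h
  · have h := gs15 (r - 1500) (by omega)
    rw [show 1500 + (r - 1500) = r by omega] at h
    exact h
  · have h := gs16 (r - 1600) (by omega)
    rw [show 1600 + (r - 1600) = r by omega] at h
    exact h
  · have h := gs17 (r - 1700) (by omega)
    rw [show 1700 + (r - 1700) = r by omega] at h
    exact h
  · have h := gs18 (r - 1800) (by omega)
    rw [show 1800 + (r - 1800) = r by omega] at h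
    exact h
  · have h := gs19 (r - 1900) (by omega)
    rw [show 1900 + (r - 1900) = r by omega] at h
    exact h
  · have h := gs20 (r - 2000) (by omega)
    rw [show 2000 + (r - 2000) = r by omega] at h
    exact h
  · have h := gs21 (r - 2100) (by omega)
    rw [show 2100 + (r - 2100) = r by omega] at h
    exact h
  · have h := gs22 (r - 2200) (by omega)
    rw [show 2200 + (r - 2200) = r by omega] at h
    exact h
  · have h := gs23 (r - 2300) (by omega)
    rw [show 2300 + (r - 2300) = r by omega] at h
    exact h
  · have h := gs24 (r - 2400) (by omega)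
    rw [show 2400 + (r - 2400) = r by omega] at h
    exact h

theorem gA : ∀ r, r < 2500 → ∀ b, b < 2 → ((ln (D.A b) r : ℕ) : ℤ) = D.res (D.fx b r) (D.fy b r) := by
  intro r hr
  obtain ⟨k, hk⟩ : ∃ k, k = r / 100 := ⟨_, rfl⟩
  have hk' : k < 25 := by omega
  interval_cases k
  · have h := ga0 (r - 0) (by omega)
    rw [show 0 + (r - 0) = r by omega] at h
    exact h
  · have h := ga1 (r - 100) (by omega)
    rw [show 100 + (r - 100) = r by omega] at h
    exact h
  · have h := ga2 (r - 200) (by omega)
    rw [show 200 + (r - 200) = r by omega] at h
    exact h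
  · have h := ga3 (r - 300) (by omega)
    rw [show 300 + (r - 300) = r by omega] at h
    exact h
  · have h := ga4 (r - 400) (by omega)
    rw [show 400 + (r - 400) = r by omega] at h
    exact h
  · have h := ga5 (r - 500) (by omega)
    rw [show 500 + (r - 500) = r by omega] at h
    exact h
  · have h := ga6 (r - 600) (by omega)
    rw [show 600 + (r - 600) = r by omega] at h
    exact h
  · have h := ga7 (r - 700) (by omega)
    rw [show 700 + (r - 700) = r by omega] at h
    exact h
  · have h := ga8 (r - 800) (by omega)
    rw [show 800 + (r - 800) = r by omega] at h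
    exact h
  · have h := ga9 (r - 900) (by omega)
    rw [show 900 + (r - 900) = r by omega] at h
    exact h
  · have h := ga10 (r - 1000) (by omega)
    rw [show 1000 + (r - 1000) = r by omega] at h
    exact h
  · have h := ga11 (r - 1100) (by omega)
    rw [show 1100 + (r - 1100) = r by omega] at h
    exact h
  · have h := ga12 (r - 1200) (by omega)
    rw [show 1200 + (r - 1200) = r by omega] at h
    exact h
  · have h := ga13 (r - 1300) (by omega)
    rw [show 1300 + (r - 1300) = r by omega] at h
    exact h
  · have h := ga14 (r - 1400) (by omega)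
    rw [show 1400 + (r - 1400) = r by omega] at h
    exact h
  · have h := ga15 (r - 1500) (by omega)
    rw [show 1500 + (r - 1500) = r by omega] at h
    exact h
  · have h := ga16 (r - 1600) (by omega)
    rw [show 1600 + (r - 1600) = r by omega] at h
    exact h
  · have h := ga17 (r - 1700) (by omega)
    rw [show 1700 + (r - 1700) = r by omega] at h
    exact h
  · have h := ga18 (r - 1800) (by omega)
    rw [show 1800 + (r - 1800) = r by omega] at h
    exact h
  · have h := ga19 (r - 1900) (by omega)
    rw [show 1900 + (r - 1900) = r by omega] at h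
    exact h
  · have h := ga20 (r - 2000) (by omega)
    rw [show 2000 + (r - 2000) = r by omega] at h
    exact h
  · have h := ga21 (r - 2100) (by omega)
    rw [show 2100 + (r - 2100) = r by omega] at h
    exact h
  · have h := ga22 (r - 2200) (by omega)
    rw [show 2200 + (r - 2200) = r by omega] at h
    exact h
  · have h := ga23 (r - 2300) (by omega)
    rw [show 2300 + (r - 2300) = r by omega] at h
    exact h
  · have h := ga24 (r - 2400) (by omega)
    rw [show 2400 + (r - 2400) = r by omega] at h
    exact h

theorem gQ : ∀ r, r < 2500 → ∀ c, c < 3 → ∀ b, b < 2 → ∀ δ, δ < 3 →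
    ((ln (D.Q b δ) (D.L * c + (D.L - 1 - r)) : ℕ) : ℤ) = D.qv b δ c r := by
  intro r hr
  obtain ⟨k, hk⟩ : ∃ k, k = r / 100 := ⟨_, rfl⟩
  have hk' : k < 25 := by omega
  interval_cases k
  · have h := gq0 (r - 0) (by omega)
    rw [show 0 + (r - 0) = r by omega] at h
    exact h
  · have h := gq1 (r - 100) (by omega)
    rw [show 100 + (r - 100) = r by omega] at h
    exact h
  · have h := gq2 (r - 200) (by omega)
    rw [show 200 + (r - 200) = r by omega] at h
    exact h
  · have h := gq3 (r - 300) (by omega)
    rw [show 300 + (r - 300) = r by omega] at h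
    exact h
  · have h := gq4 (r - 400) (by omega)
    rw [show 400 + (r - 400) = r by omega] at h
    exact h
  · have h := gq5 (r - 500) (by omega)
    rw [show 500 + (r - 500) = r by omega] at h
    exact h
  · have h := gq6 (r - 600) (by omega)
    rw [show 600 + (r - 600) = r by omega] at h
    exact h
  · have h := gq7 (r - 700) (by omega)
    rw [show 700 + (r - 700) = r by omega] at h
    exact h
  · have h := gq8 (r - 800) (by omega)
    rw [show 800 + (r - 800) = r by omega] at h
    exact h
  · have h := gq9 (r - 900) (by omega)
    rw [show 900 + (r - 900) = r by omega] at h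
    exact h
  · have h := gq10 (r - 1000) (by omega)
    rw [show 1000 + (r - 1000) = r by omega] at h
    exact h
  · have h := gq11 (r - 1100) (by omega)
    rw [show 1100 + (r - 1100) = r by omega] at h
    exact h
  · have h := gq12 (r - 1200) (by omega)
    rw [show 1200 + (r - 1200) = r by omega] at h
    exact h
  · have h := gq13 (r - 1300) (by omega)
    rw [show 1300 + (r - 1300) = r by omega] at h
    exact h
  · have h := gq14 (r - 1400) (by omega)
    rw [show 1400 + (r - 1400) = r by omega] at h
    exact h
  · have h := gq15 (r - 1500) (by omega)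
    rw [show 1500 + (r - 1500) = r by omega] at h
    exact h
  · have h := gq16 (r - 1600) (by omega)
    rw [show 1600 + (r - 1600) = r by omega] at h
    exact h
  · have h := gq17 (r - 1700) (by omega)
    rw [show 1700 + (r - 1700) = r by omega] at h
    exact h
  · have h := gq18 (r - 1800) (by omega)
    rw [show 1800 + (r - 1800) = r by omega] at h
    exact h
  · have h := gq19 (r - 1900) (by omega)
    rw [show 1900 + (r - 1900) = r by omega] at h
    exact h
  · have h := gq20 (r - 2000) (by omega)
    rw [show 2000 + (r - 2000) = r by omega] at h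
    exact h
  · have h := gq21 (r - 2100) (by omega)
    rw [show 2100 + (r - 2100) = r by omega] at h
    exact h
  · have h := gq22 (r - 2200) (by omega)
    rw [show 2200 + (r - 2200) = r by omega] at h
    exact h
  · have h := gq23 (r - 2300) (by omega)
    rw [show 2300 + (r - 2300) = r by omega] at h
    exact h
  · have h := gq24 (r - 2400) (by omega)
    rw [show 2400 + (r - 2400) = r by omega] at h
    exact h

theorem gT : ∀ r, r < 2500 → ∀ b, b < 2 → ∀ δ, δ < 3 → ((ln (D.T b δ) r : ℕ) : ℤ) = D.tv b δ r := by
  intro r hr
  obtain ⟨k, hk⟩ : ∃ k, k = r / 100 := ⟨_, rfl⟩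
  have hk' : k < 25 := by omega
  interval_cases k
  · have h := gt0 (r - 0) (by omega)
    rw [show 0 + (r - 0) = r by omega] at h
    exact h
  · have h := gt1 (r - 100) (by omega)
    rw [show 100 + (r - 100) = r by omega] at h
    exact h
  · have h := gt2 (r - 200) (by omega)
    rw [show 200 + (r - 200) = r by omega] at h
    exact h
  · have h := gt3 (r - 300) (by omega)
    rw [show 300 + (r - 300) = r by omega] at h
    exact h
  · have h := gt4 (r - 400) (by omega)
    rw [show 400 + (r - 400) = r by omega] at h
    exact h
  · have h := gt5 (r - 500) (by omega)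
    rw [show 500 + (r - 500) = r by omega] at h
    exact h
  · have h := gt6 (r - 600) (by omega)
    rw [show 600 + (r - 600) = r by omega] at h
    exact h
  · have h := gt7 (r - 700) (by omega)
    rw [show 700 + (r - 700) = r by omega] at h
    exact h
  · have h := gt8 (r - 800) (by omega)
    rw [show 800 + (r - 800) = r by omega] at h
    exact h
  · have h := gt9 (r - 900) (by omega)
    rw [show 900 + (r - 900) = r by omega] at h
    exact h
  · have h := gt10 (r - 1000) (by omega)
    rw [show 1000 + (r - 1000) = r by omega] at h
    exact h
  · have h := gt11 (r - 1100) (by omega)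
    rw [show 1100 + (r - 1100) = r by omega] at h
    exact h
  · have h := gt12 (r - 1200) (by omega)
    rw [show 1200 + (r - 1200) = r by omega] at h
    exact h
  · have h := gt13 (r - 1300) (by omega)
    rw [show 1300 + (r - 1300) = r by omega] at h
    exact h
  · have h := gt14 (r - 1400) (by omega)
    rw [show 1400 + (r - 1400) = r by omega] at h
    exact h
  · have h := gt15 (r - 1500) (by omega)
    rw [show 1500 + (r - 1500) = r by omega] at h
    exact h
  · have h := gt16 (r - 1600) (by omega)
    rw [show 1600 + (r - 1600) = r by omega] at h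
    exact h
  · have h := gt17 (r - 1700) (by omega)
    rw [show 1700 + (r - 1700) = r by omega] at h
    exact h
  · have h := gt18 (r - 1800) (by omega)
    rw [show 1800 + (r - 1800) = r by omega] at h
    exact h
  · have h := gt19 (r - 1900) (by omega)
    rw [show 1900 + (r - 1900) = r by omega] at h
    exact h
  · have h := gt20 (r - 2000) (by omega)
    rw [show 2000 + (r - 2000) = r by omega] at h
    exact h
  · have h := gt21 (r - 2100) (by omega)
    rw [show 2100 + (r - 2100) = r by omega] at h
    exact h
  · have h := gt22 (r - 2200) (by omega)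
    rw [show 2200 + (r - 2200) = r by omega] at h
    exact h
  · have h := gt23 (r - 2300) (by omega)
    rw [show 2300 + (r - 2300) = r by omega] at h
    exact h
  · have h := gt24 (r - 2400) (by omega)
    rw [show 2400 + (r - 2400) = r by omega] at h
    exact h

theorem zero : ∀ b, b < 2 → fx b 0 = 0 ∧ fy b 0 = 0 := by decide +kernel

theorem good : D.Good where
  hN := by decide +kernel
  hN0 := by decide +kernel
  hN1 := by decide +kernel
  hL := by decide +kernel
  hL2 := by decide +kernel
  k1 := by decide +kernel
  k2 := by decide +kernel
  hO := by decide +kernel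
  hH := by decide +kernel
  hF := by decide +kernel
  hA := gA
  hA1 := by decide +kernel
  hQ := gQ
  hQ1 := by decide +kernel
  hT := gT

theorem ends : fx 0 2500 = 95 ∧ fy 0 2500 = -64 ∧ fx 1 2500 = -30 ∧ fy 1 2500 = 58 := by decide +kernel

end Pool.Agent.H41.MK.W
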