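import Pool.Agent.H41.MK.W.Lit

set_option autoImplicit false

/-!
# Rows 0 to 249 of the check
-/

namespace Pool.Agent.H41.MK.W

open Pool.Agent.K7.H27.MK Pool.Agent.H41.MK

theorem c0 : D.chunk 0 50 = true := by decide +kernel

theorem c1 : D.chunk 50 50 = true := by decide +kernel

theorem c2 : D.chunk 100 50 = true := by decide +kernel

theorem c3 : D.chunk 150 50 = true := by decide +kernel

theorem c4 : D.chunk 200 50 = true := by decide +kernel

end Pool.Agent.H41.MK.W
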