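import Pool.Agent.H41.MK.W.R0

set_option autoImplicit false

/-!
# Rows 250 to 499 of the check
-/

namespace Pool.Agent.H41.MK.W

open Pool.Agent.K7.H27.MK Pool.Agent.H41.MK

theorem c5 : D.chunk 250 50 = true := by decide +kernel

theorem c6 : D.chunk 300 50 = true := by decide +kernel

theorem c7 : D.chunk 350 50 = true := by decide +kernel

theorem c8 : D.chunk 400 50 = true := by decide +kernel

theorem c9 : D.chunk 450 50 = true := by decide +kernel

end Pool.Agent.H41.MK.W
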