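import Pool.Agent.H41.MK.W.R1

set_option autoImplicit false

/-!
# Rows 500 to 749 of the check
-/

namespace Pool.Agent.H41.MK.W

open Pool.Agent.K7.H27.MK Pool.Agent.H41.MK

theorem c10 : D.chunk 500 50 = true := by decide +kernel

theorem c11 : D.chunk 550 50 = true := by decide +kernel

theorem c12 : D.chunk 600 50 = true := by decide +kernel

theorem c13 : D.chunk 650 50 = true := by decide +kernel

theorem c14 : D.chunk 700 50 = true := by decide +kernel

end Pool.Agent.H41.MK.W
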