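import Pool.Agent.H41.MK.W.R2

set_option autoImplicit false

/-!
# Rows 750 to 999 of the check
-/

namespace Pool.Agent.H41.MK.W

open Pool.Agent.K7.H27.MK Pool.Agent.H41.MK

theorem c15 : D.chunk 750 50 = true := by decide +kernel

theorem c16 : D.chunk 800 50 = true := by decide +kernel

theorem c17 : D.chunk 850 50 = true := by decide +kernel

theorem c18 : D.chunk 900 50 = true := by decide +kernel

theorem c19 : D.chunk 950 50 = true := by decide +kernel

end Pool.Agent.H41.MK.W
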