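import Pool.Agent.H41.MK.W.R3

set_option autoImplicit false

/-!
# Rows 1000 to 1249 of the check
-/

namespace Pool.Agent.H41.MK.W

open Pool.Agent.K7.H27.MK Pool.Agent.H41.MK

theorem c20 : D.chunk 1000 50 = true := by decide +kernel

theorem c21 : D.chunk 1050 50 = true := by decide +kernel

theorem c22 : D.chunk 1100 50 = true := by decide +kernel

theorem c23 : D.chunk 1150 50 = true := by decide +kernel

theorem c24 : D.chunk 1200 50 = true := by decide +kernel

end Pool.Agent.H41.MK.W
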