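import Pool.Agent.H41.MK.W.R4

set_option autoImplicit false

/-!
# Rows 1250 to 1499 of the check
-/

namespace Pool.Agent.H41.MK.W

open Pool.Agent.K7.H27.MK Pool.Agent.H41.MK

theorem c25 : D.chunk 1250 50 = true := by decide +kernel

theorem c26 : D.chunk 1300 50 = true := by decide +kernel

theorem c27 : D.chunk 1350 50 = true := by decide +kernel

theorem c28 : D.chunk 1400 50 = true := by decide +kernel

theorem c29 : D.chunk 1450 50 = true := by decide +kernel

end Pool.Agent.H41.MK.W
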