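import Pool.Agent.H41.MK.W.R5

set_option autoImplicit false

/-!
# Rows 1500 to 1749 of the check
-/

namespace Pool.Agent.H41.MK.W

open Pool.Agent.K7.H27.MK Pool.Agent.H41.MK

theorem c30 : D.chunk 1500 50 = true := by decide +kernel

theorem c31 : D.chunk 1550 50 = true := by decide +kernel

theorem c32 : D.chunk 1600 50 = true := by decide +kernel

theorem c33 : D.chunk 1650 50 = true := by decide +kernel

theorem c34 : D.chunk 1700 50 = true := by decide +kernel

end Pool.Agent.H41.MK.W
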