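import Pool.Agent.H41.MK.W.R6

set_option autoImplicit false

/-!
# Rows 1750 to 1999 of the check
-/

namespace Pool.Agent.H41.MK.W

open Pool.Agent.K7.H27.MK Pool.Agent.H41.MK

theorem c35 : D.chunk 1750 50 = true := by decide +kernel

theorem c36 : D.chunk 1800 50 = true := by decide +kernel

theorem c37 : D.chunk 1850 50 = true := by decide +kernel

theorem c38 : D.chunk 1900 50 = true := by decide +kernel

theorem c39 : D.chunk 1950 50 = true := by decide +kernel

end Pool.Agent.H41.MK.W
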