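import Pool.Agent.H41.MK.W.R7

set_option autoImplicit false

/-!
# Rows 2000 to 2249 of the check
-/

namespace Pool.Agent.H41.MK.W

open Pool.Agent.K7.H27.MK Pool.Agent.H41.MK

theorem c40 : D.chunk 2000 50 = true := by decide +kernel

theorem c41 : D.chunk 2050 50 = true := by decide +kernel

theorem c42 : D.chunk 2100 50 = true := by decide +kernel

theorem c43 : D.chunk 2150 50 = true := by decide +kernel

theorem c44 : D.chunk 2200 50 = true := by decide +kernel

end Pool.Agent.H41.MK.W
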